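import Mathlib
import Pool.Agent.V11310.CL.Neg

set_option autoImplicit false

/-!
# Curves of arithmetic genus at least one: the square of the degree

Let `C` be an irreducible plane curve of degree `d` with multiplicities `w i` at `n ≥ 4` very general
points, whose strict transform has arithmetic genus at least one, and with `d ^ 2 < ∑ w i ^ 2`. Then
NO multiple `(t d; t w)`, `t ≥ 1`, of its class is reached or carried by finitely many reflections to a
standard class which is reached. In other words `∑ w i ^ 2 ≤ d ^ 2` for all irreducible curves of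
arithmetic genus at least one for which some multiple `(t d; t w)`, `t ≥ 1`, is of this kind.

`Reached N0 d w` (`Pool.Agent.V11310.CL.Reached`): the multiset of the multiplicities `w` belongs, in
degree `d`, to the smallest class of multisets of multiplicities with one of the two signs (no curves,
independent conditions) which contains the comparable, the large and the good classes (`Base`) and is
closed under collisions (a point of multiplicity `μ` may be replaced by points `M'` if `M'` is in the
class in degree `μ - 1`), quadratic transformations, doubling (four points of multiplicity `m` for one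
point of the multiplicities `2 m` and `2 m + 1`), adding or removing points and changing the degree.
-/

namespace Pool.Agent.Results.MP_3c72fe_ag.ReachedMultiples

open MvPolynomial Pool.Agent.TH167.SHDefs
open Pool.Agent.V11310.CL (Base Reached Covered multiples canonical_pos reached_of_base)

theorem result : ∃ N0 : ℕ,
    (∀ (n d : ℕ) (w : Fin n → ℕ), Base N0 d w → Reached N0 d w) ∧
    ∀ n : ℕ, 4 ≤ n →
    ∃ Z : ℕ → MvPolynomial (Fin n × Fin 2) ℂ, (∀ k, Z k ≠ 0) ∧
      ∀ P : Fin n → Fin 2 → ℂ,
        (∀ k, MvPolynomial.eval (fun ij : Fin n × Fin 2 => P ij.1 ij.2) (Z k) ≠ 0) →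
        ∀ (d : ℕ) (w : Fin n → ℕ) (C : MvPolynomial (Fin 3) ℂ), Curve P C d w →
          0 ≤ inter d w d w + interK d w →
          (∃ t : ℕ, 1 ≤ t ∧ Covered N0 (t * d) (fun i => t * w i)) →
          ∑ i, w i ^ 2 ≤ d ^ 2 := by
  obtain ⟨N0, hN0⟩ := Pool.Agent.Y939.NC.reg_exp
  refine ⟨N0, fun n d w => reached_of_base, fun n hn => ?_⟩
  obtain ⟨Z, hZ, h⟩ := Pool.Agent.TH167.SH.exists_fam (Fin n × Fin 2)
  refine ⟨Z, hZ, fun P hP0 => ?_⟩
  have hP := (h _).1 hP0
  rintro d w C hC hg ⟨t, ht, hcov⟩
  by_contra hcon
  have h1 : inter d w d w < 0 := by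
    unfold inter
    have h2 : (((d ^ 2 : ℕ)) : ℤ) < ((∑ i, w i ^ 2 : ℕ) : ℤ) := by exact_mod_cast not_le.1 hcon
    push_cast at h2
    simp only [pow_two] at h2
    linarith
  exact multiples hN0 hn hP hC h1.le (by omega) ht hcov

end Pool.Agent.Results.MP_3c72fe_ag.ReachedMultiples
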